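import Pool.Agent.Helper44.GF.Defs

/-!
# Module HBALL: the Hausdorff measure of the unit ball of a normed space
-/

open Finset MeasureTheory Filter Topology
open scoped ENNReal

namespace Pool.Agent.Helper44.GF

section

variable {E : Type} [NormedAddCommGroup E] [NormedSpace ℝ E] [FiniteDimensional ℝ E]
  [MeasurableSpace E] [BorelSpace E] [Nontrivial E]

theorem hball_lower (h : ST_ISOD) :
    (2 : ℝ≥0∞) ^ Module.finrank ℝ E ≤
      μH[(Module.finrank ℝ E : ℝ)] (Metric.closedBall (0 : E) 1) := by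
  have hpos : μH[(Module.finrank ℝ E : ℝ)] (Metric.closedBall (0 : E) 1) ≠ 0 :=
    (Metric.measure_closedBall_pos _ _ one_pos).ne'
  have hfin : μH[(Module.finrank ℝ E : ℝ)] (Metric.closedBall (0 : E) 1) ≠ ⊤ :=
    (ProperSpace.isCompact_closedBall (0 : E) 1).measure_lt_top.ne
  have h1 : ((2 : ℝ≥0∞) ^ Module.finrank ℝ E /
      μH[(Module.finrank ℝ E : ℝ)] (Metric.closedBall (0 : E) 1)) •
      (μH[(Module.finrank ℝ E : ℝ)] : Measure E) ≤ μH[(Module.finrank ℝ E : ℝ)] := by
    apply Measure.le_hausdorffMeasure _ _ ⊤ (by simp)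
    intro s _
    have h2 := h E (μH[(Module.finrank ℝ E : ℝ)]) s
    rw [Measure.smul_apply, smul_eq_mul, ← ENNReal.mul_div_right_comm, mul_comm]
    exact ENNReal.div_le_of_le_mul h2
  have h3 := h1 (Metric.closedBall (0 : E) 1)
  rw [Measure.smul_apply, smul_eq_mul, ENNReal.div_mul_cancel hpos hfin] at h3
  exact h3

/-- covering of the open unit ball by small disjoint closed balls -/
theorem hball_cover (k : ℕ) : ∃ (t : Set E) (r : E → ℝ), t.Countable ∧
    (∀ x ∈ t, 0 < r x) ∧ (∀ x ∈ t, r x ≤ 1 / (k + 1)) ∧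
    (∀ x ∈ t, Metric.closedBall x (r x) ⊆ Metric.ball 0 1) ∧
    μH[(Module.finrank ℝ E : ℝ)] (Metric.ball (0 : E) 1 \ ⋃ x ∈ t, Metric.closedBall x (r x)) = 0 ∧
    t.PairwiseDisjoint fun x => Metric.closedBall x (r x) := by
  obtain ⟨t, r, h1, h2, h3, h4, h5⟩ := Besicovitch.exists_disjoint_closedBall_covering_ae
    (μH[(Module.finrank ℝ E : ℝ)] : Measure E) (fun _ => Set.univ) (Metric.ball (0 : E) 1)
    (fun x _ δ hδ => ⟨δ / 2, Set.mem_univ _, by constructor <;> linarith⟩)
    (fun x => min (1 / ((k : ℝ) + 1)) (1 - ‖x‖))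
    (fun x hx => by
      rw [mem_ball_zero_iff] at hx
      exact lt_min (by positivity) (by linarith))
  refine ⟨t, r, h1, ?_, ?_, ?_, h4, h5⟩
  · intro x hx
    exact (h3 x hx).2.1
  · intro x hx
    exact ((h3 x hx).2.2.le).trans (min_le_left _ _)
  · intro x hx y hy
    have h6 : r x < 1 - ‖x‖ := lt_of_lt_of_le (h3 x hx).2.2 (min_le_right _ _)
    rw [Metric.mem_closedBall, dist_eq_norm] at hy
    rw [mem_ball_zero_iff]
    have h7 : ‖y‖ ≤ ‖y - x‖ + ‖x‖ := by
      have := norm_add_le (y - x) x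
      rwa [sub_add_cancel] at this
    linarith

theorem hball_term (x : E) {r : ℝ} (hr : 0 < r) :
    Metric.ediam (Metric.closedBall x r) ^ (Module.finrank ℝ E : ℝ) ≤
      2 ^ Module.finrank ℝ E / μH[(Module.finrank ℝ E : ℝ)] (Metric.ball (0 : E) 1) *
        μH[(Module.finrank ℝ E : ℝ)] (Metric.closedBall x r) := by
  have hpos : μH[(Module.finrank ℝ E : ℝ)] (Metric.ball (0 : E) 1) ≠ 0 :=
    (Metric.measure_ball_pos _ _ one_pos).ne'
  have hfin : μH[(Module.finrank ℝ E : ℝ)] (Metric.ball (0 : E) 1) ≠ ⊤ :=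
    measure_ball_lt_top.ne
  have h1 : Metric.ediam (Metric.closedBall x r) ≤ 2 * ENNReal.ofReal r := by
    rw [← Metric.closedEBall_ofReal hr.le]
    exact Metric.ediam_closedEBall_le
  have h2 := Measure.addHaar_closedBall (μH[(Module.finrank ℝ E : ℝ)]) x hr.le
  rw [h2, ENNReal.rpow_natCast]
  refine (pow_le_pow_left' h1 _).trans ?_
  rw [mul_pow, ENNReal.ofReal_pow hr.le, mul_comm (ENNReal.ofReal r ^ Module.finrank ℝ E)
    (μH[(Module.finrank ℝ E : ℝ)] (Metric.ball (0 : E) 1)), ← mul_assoc,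
    ENNReal.div_mul_cancel hpos hfin]

theorem hball_upper : μH[(Module.finrank ℝ E : ℝ)] (Metric.closedBall (0 : E) 1) ≤
    (2 : ℝ≥0∞) ^ Module.finrank ℝ E := by
  have hpos : μH[(Module.finrank ℝ E : ℝ)] (Metric.ball (0 : E) 1) ≠ 0 :=
    (Metric.measure_ball_pos _ _ one_pos).ne'
  have hfin : μH[(Module.finrank ℝ E : ℝ)] (Metric.ball (0 : E) 1) ≠ ⊤ :=
    measure_ball_lt_top.ne
  choose t r ht1 ht2 ht3 ht4 ht5 ht6 using hball_cover (E := E)
  obtain ⟨N, hN⟩ : ∃ N : Set E, N = ⋃ k : ℕ, (Metric.ball (0 : E) 1 \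
    ⋃ x ∈ t k, Metric.closedBall x (r k x)) := ⟨_, rfl⟩
  have hN0 : μH[(Module.finrank ℝ E : ℝ)] N = 0 := by
    rw [hN]
    exact measure_iUnion_null ht5
  have hcnt : ∀ k, Countable (t k) := fun k => (ht1 k).to_subtype
  have hsum : ∀ k, ∑' x : t k, Metric.ediam (Metric.closedBall (x : E) (r k x)) ^
      (Module.finrank ℝ E : ℝ) ≤ 2 ^ Module.finrank ℝ E := by
    intro k
    calc ∑' x : t k, Metric.ediam (Metric.closedBall (x : E) (r k x)) ^
          (Module.finrank ℝ E : ℝ)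
        ≤ ∑' x : t k, 2 ^ Module.finrank ℝ E /
            μH[(Module.finrank ℝ E : ℝ)] (Metric.ball (0 : E) 1) *
            μH[(Module.finrank ℝ E : ℝ)] (Metric.closedBall (x : E) (r k x)) :=
          ENNReal.tsum_le_tsum fun x => hball_term (x : E) (ht2 k x x.2)
      _ = 2 ^ Module.finrank ℝ E /
            μH[(Module.finrank ℝ E : ℝ)] (Metric.ball (0 : E) 1) *
            ∑' x : t k, μH[(Module.finrank ℝ E : ℝ)] (Metric.closedBall (x : E) (r k x)) :=
          ENNReal.tsum_mul_left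
      _ = 2 ^ Module.finrank ℝ E /
            μH[(Module.finrank ℝ E : ℝ)] (Metric.ball (0 : E) 1) *
            μH[(Module.finrank ℝ E : ℝ)] (⋃ x ∈ t k, Metric.closedBall x (r k x)) := by
          rw [measure_biUnion (ht1 k) (ht6 k) (fun x _ => Metric.isClosed_closedBall.measurableSet)]
      _ ≤ 2 ^ Module.finrank ℝ E /
            μH[(Module.finrank ℝ E : ℝ)] (Metric.ball (0 : E) 1) *
            μH[(Module.finrank ℝ E : ℝ)] (Metric.ball (0 : E) 1) := by
          gcongr
          exact Set.iUnion₂_subset (ht4 k)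
      _ = 2 ^ Module.finrank ℝ E := ENNReal.div_mul_cancel hpos hfin
  have hS : μH[(Module.finrank ℝ E : ℝ)] (Metric.ball (0 : E) 1 \ N) ≤
      2 ^ Module.finrank ℝ E := by
    have hr0 : Tendsto (fun k : ℕ => 2 * ENNReal.ofReal (1 / ((k : ℝ) + 1))) atTop (𝓝 0) := by
      have h1 : Tendsto (fun k : ℕ => ENNReal.ofReal (1 / ((k : ℝ) + 1))) atTop (𝓝 0) := by
        have := ENNReal.tendsto_ofReal (tendsto_one_div_add_atTop_nhds_zero_nat (𝕜 := ℝ))
        rwa [ENNReal.ofReal_zero] at this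
      have h2 := ENNReal.Tendsto.const_mul h1 (a := 2) (Or.inr (by simp))
      rwa [mul_zero] at h2
    have h3 := Measure.hausdorffMeasure_le_liminf_tsum (Module.finrank ℝ E : ℝ)
      (Metric.ball (0 : E) 1 \ N) (fun k : ℕ => 2 * ENNReal.ofReal (1 / ((k : ℝ) + 1))) hr0
      (fun k (x : t k) => Metric.closedBall (x : E) (r k x))
      (Eventually.of_forall fun k x => ?_) (Eventually.of_forall fun k => ?_)
    · refine h3.trans ?_
      refine (liminf_le_liminf (Eventually.of_forall hsum)).trans ?_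
      rw [liminf_const]
    · rw [← Metric.closedEBall_ofReal (ht2 k x x.2).le]
      refine Metric.ediam_closedEBall_le.trans ?_
      gcongr
      exact ht3 k x x.2
    · intro y hy
      have h4 : y ∉ (Metric.ball (0 : E) 1 \ ⋃ x ∈ t k, Metric.closedBall x (r k x)) := by
        intro hc
        apply hy.2
        rw [hN]
        exact Set.mem_iUnion.2 ⟨k, hc⟩
      have h5 : y ∈ ⋃ x ∈ t k, Metric.closedBall x (r k x) := by
        by_contra hc
        exact h4 ⟨hy.1, hc⟩
      simp only [Set.mem_iUnion] at h5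
      obtain ⟨x, hx, hxy⟩ := h5
      exact Set.mem_iUnion.2 ⟨⟨x, hx⟩, hxy⟩
  have h7 : μH[(Module.finrank ℝ E : ℝ)] (Metric.closedBall (0 : E) 1) =
      μH[(Module.finrank ℝ E : ℝ)] (Metric.ball (0 : E) 1) := by
    have := Measure.addHaar_closedBall (μH[(Module.finrank ℝ E : ℝ)]) (0 : E) zero_le_one
    rw [this, one_pow, ENNReal.ofReal_one, one_mul]
  rw [h7]
  calc μH[(Module.finrank ℝ E : ℝ)] (Metric.ball (0 : E) 1)
      ≤ μH[(Module.finrank ℝ E : ℝ)] ((Metric.ball (0 : E) 1 \ N) ∪ N) :=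
        measure_mono (by
          intro y hy
          by_cases h : y ∈ N
          · exact Or.inr h
          · exact Or.inl ⟨hy, h⟩)
    _ ≤ μH[(Module.finrank ℝ E : ℝ)] (Metric.ball (0 : E) 1 \ N) +
        μH[(Module.finrank ℝ E : ℝ)] N := measure_union_le _ _
    _ ≤ 2 ^ Module.finrank ℝ E := by rw [hN0, add_zero]; exact hS

end

theorem st_HBALL (h : ST_ISOD) : ST_HBALL := by
  intro E _ _ _ _ _ _
  exact le_antisymm hball_upper (hball_lower h)

end Pool.Agent.Helper44.GF
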